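import Mathlib
import Pool.Agent.H589R3.DT.Two
import Pool.Agent.W953.RD.Multi
import Pool.Agent.W953.RD.WH

/-!
# Two-to-one games on windows of numbers of edges
-/

set_option autoImplicit false

open scoped Classical
open Finset

namespace Pool.Agent.W953.TG

open Pool.Agent.W953.NW Pool.Agent.W953.RD
open Pool.Agent (H540R2.Circuit H540R2.Node H540R2.Gate)
open H589DT (TGame TYes TNo tInputs)
open H630VC (Prog Mono2)

/-- the number of bits that describe a game with `N` vertices on each side and alphabet `[q]` -/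
def bits (N q : ℕ) : ℕ := N * N * q ^ q

/-- a numbering of the bits -/
noncomputable def bitNo (N q : ℕ) : (Fin N × Fin N × (Fin q → Fin q)) ≃ Fin (bits N q) :=
  Fintype.equivFinOfCardEq (by simp [bits, mul_assoc])

/-- the bits of a game: for all `u`, `v`, `π`, are `u` and `v` adjacent with the constraint `π`? -/
noncomputable def code {N q : ℕ} (I : TGame (Fin N) (Fin N) q) : Fin (bits N q) → Bool :=
  fun i => decide (I.adj ((bitNo N q).symm i).1 ((bitNo N q).symm i).2.1 ∧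
    I.map ((bitNo N q).symm i).1 ((bitNo N q).symm i).2.1 = ((bitNo N q).symm i).2.2)

/-- the number of edges -/
noncomputable def edges {N q : ℕ} (I : TGame (Fin N) (Fin N) q) : ℕ :=
  (univ.filter fun e : Fin N × Fin N => I.adj e.1 e.2).card

/-- on the game `I` the circuit tells value at most `δ` (output one) from value one (output
zero) -/
def Right {N q : ℕ} (δ : ℝ) (D : H540R2.Circuit (bits N q)) (I : TGame (Fin N) (Fin N) q) : Prop :=
  (TNo δ I → D.eval (code I) = true) ∧ (TYes I → D.eval (code I) = false)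

/-- Circuits of polynomial size tell the games with alphabet `[q]` of value at most `δ` from those
of value one. -/
def Easy (q : ℕ) (δ : ℝ) : Prop := ∃ c : ℕ, ∀ N : ℕ, ∃ D : H540R2.Circuit (bits N q),
  D.size ≤ (N + 2) ^ c ∧ ∀ I, Right δ D I

/-- Circuits of polynomial size with at most `t N` NOT gates do this for the games with at least `a`
and less than `a + W N` edges, for all `a`. -/
def EasyOn (q : ℕ) (δ : ℝ) (t W : ℕ → ℕ) : Prop := ∃ c : ℕ, ∀ N a : ℕ,
  ∃ D : H540R2.Circuit (bits N q), D.nots ≤ t N ∧ D.size ≤ (N + 2) ^ c ∧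
    ∀ I, a ≤ edges I → edges I < a + W N → Right δ D I

lemma wt_code {N q : ℕ} (I : TGame (Fin N) (Fin N) q) : wt (code I) = edges I := by
  unfold wt edges
  symm
  refine card_bij (fun e _ => bitNo N q (e.1, e.2, I.map e.1 e.2)) ?_ ?_ ?_
  · intro e he
    have h1 := (mem_filter.1 he).2
    refine mem_filter.2 ⟨mem_univ _, ?_⟩
    unfold code
    rw [decide_eq_true_iff, Equiv.symm_apply_apply]
    exact ⟨h1, rfl⟩
  · rintro ⟨a, b⟩ _ ⟨c, d⟩ _ h
    have h1 := (bitNo N q).injective h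
    simp only [Prod.mk.injEq] at h1
    exact Prod.ext h1.1 h1.2.1
  · intro i hi
    have h1 := (mem_filter.1 hi).2
    unfold code at h1
    rw [decide_eq_true_iff] at h1
    refine ⟨(((bitNo N q).symm i).1, ((bitNo N q).symm i).2.1),
      mem_filter.2 ⟨mem_univ _, h1.1⟩, ?_⟩
    rw [h1.2]
    simp

lemma bits_le (N q : ℕ) : bits N q + 2 ≤ (N + 2) ^ (q ^ q + 4) := by
  have h1 : q ^ q + 2 ≤ 2 ^ (q ^ q + 2) := (Nat.lt_two_pow_self).le
  have h2 : 2 ^ (q ^ q + 2) ≤ (N + 2) ^ (q ^ q + 2) := Nat.pow_le_pow_left (by omega) _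
  calc bits N q + 2 ≤ (N + 2) ^ 2 * (q ^ q + 2) := by
        unfold bits
        nlinarith [Nat.zero_le (N * q ^ q), Nat.zero_le N, Nat.zero_le (q ^ q)]
    _ ≤ (N + 2) ^ 2 * (N + 2) ^ (q ^ q + 2) := Nat.mul_le_mul_left _ (h1.trans h2)
    _ = (N + 2) ^ (q ^ q + 4) := by rw [← pow_add]; congr 1; omega

/-- constants are absorbed -/
lemma absorb (a b c N B s : ℕ) (hB : B ≤ (N + 2) ^ b) (hs : s ≤ (N + 2) ^ c) :
    2 ^ a * B ^ 14 * (s + 1) ≤ (N + 2) ^ (a + 14 * b + c + 1) := by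
  have h1 : 2 ^ a ≤ (N + 2) ^ a := Nat.pow_le_pow_left (by omega) _
  have h3 : B ^ 14 ≤ (N + 2) ^ (14 * b) := by
    calc B ^ 14 ≤ ((N + 2) ^ b) ^ 14 := Nat.pow_le_pow_left hB _
      _ = (N + 2) ^ (14 * b) := by rw [← pow_mul]; congr 1; ring
  have h4 : s + 1 ≤ (N + 2) ^ (c + 1) := by
    have h5 : 1 ≤ (N + 2) ^ c := Nat.one_le_pow _ _ (by omega)
    calc s + 1 ≤ (N + 2) ^ c * 2 := by omega
      _ ≤ (N + 2) ^ c * (N + 2) := Nat.mul_le_mul_left _ (by omega)
      _ = (N + 2) ^ (c + 1) := (pow_succ _ _).symm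
  calc 2 ^ a * B ^ 14 * (s + 1) ≤ (N + 2) ^ a * (N + 2) ^ (14 * b) * (N + 2) ^ (c + 1) :=
        Nat.mul_le_mul (Nat.mul_le_mul h1 h3) h4
    _ = (N + 2) ^ (a + 14 * b + c + 1) := by
        rw [← pow_add, ← pow_add]
        congr 1

/-- another output -/
lemma reout_eval {n : ℕ} (C : H540R2.Circuit n) (o : H540R2.Node n)
    (ho : ∀ j, o.wires j ≠ 0 → j < C.size) (x : Fin n → Bool) :
    H540R2.Circuit.eval (⟨C.size, C.gate, o, C.gate_lt, ho⟩ : H540R2.Circuit n) x =
      o.eval x (C.val x) := by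
  have h : H540R2.Circuit.Ext C ⟨C.size, C.gate, o, C.gate_lt, ho⟩ := ⟨le_rfl, fun i _ => rfl⟩
  exact h.node_eval x ho

theorem easy_iff (q : ℕ) (δ : ℝ) (t W : ℕ → ℕ) (hW : ∀ N, 1 ≤ W N ∧ W N ≤ 2 ^ t N) :
    EasyOn q δ t W ↔ Easy q δ := by
  constructor
  · rintro ⟨c, h⟩
    refine ⟨21 + 14 * (q ^ q + 4) + c + 1, fun N => ?_⟩
    choose D d1 d2 d3 using h N
    obtain ⟨M, hM⟩ : ∃ M, M = bits N q := ⟨_, rfl⟩
    have hb := bits_le N q
    obtain ⟨C', o', q1, q2, q3⟩ := mux_multi (n := bits N q) (m := 1)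
      (Nat.log 2 (bits N q) + 1) ((N + 2) ^ c)
      (Nat.lt_pow_succ_log_self (by norm_num) _) D d2
      (fun a _ => (D a).out) (fun a _ j => (D a).out_lt j)
    refine ⟨⟨C'.size, C'.gate, o' 0, C'.gate_lt, q2 0⟩, ?_, fun I => ?_⟩
    · show C'.size ≤ _
      refine le_trans q1 (le_trans ?_ (absorb 21 (q ^ q + 4) c N (bits N q + 2) ((N + 2) ^ c) hb
        le_rfl))
      unfold msz
      have e1 := pow_two_log (bits N q)
      have e2 := tde_le' (bits N q)
      obtain ⟨B, hB⟩ : ∃ B, B = bits N q + 2 := ⟨_, rfl⟩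
      rw [← hB] at e1 e2 ⊢
      obtain ⟨R, hR⟩ : ∃ R, R = 2 ^ (Nat.log 2 (bits N q) + 1) := ⟨_, rfl⟩
      rw [← hR] at e1 ⊢
      obtain ⟨s, hs⟩ : ∃ s, s = (N + 2) ^ c := ⟨_, rfl⟩
      rw [← hs]
      have hB1 : 1 ≤ B := by omega
      have e3 : B ≤ B ^ 14 := by
        calc B = B ^ 1 := (pow_one B).symm
          _ ≤ B ^ 14 := Nat.pow_le_pow_right hB1 (by norm_num)
      have e4 : B ^ 13 ≤ B ^ 14 := Nat.pow_le_pow_right hB1 (by norm_num)
      calc R * s + R * 2 ^ tde (bits N q) + 6 * R * (1 + 1)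
          ≤ (2 * B) * s + (2 * B) * (2 ^ 18 * B ^ 12) + 6 * (2 * B) * (1 + 1) := by gcongr
        _ = 2 * (B * s) + 2 ^ 19 * B ^ 13 + 24 * B := by ring
        _ ≤ 2 * (B ^ 14 * s) + 2 ^ 19 * B ^ 14 + 24 * B ^ 14 := by gcongr
        _ ≤ 2 ^ 21 * B ^ 14 * (s + 1) := by
            have e5 : 2 ^ 21 * B ^ 14 * (s + 1) = 2 ^ 21 * (B ^ 14 * s) + 2 ^ 21 * B ^ 14 := by
              ring
            rw [e5]
            have e6 : 0 ≤ B ^ 14 * s := Nat.zero_le _
            omega
    · have h5 := d3 (edges I) I le_rfl (by have := (hW N).1; omega)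
      have h6 : H540R2.Circuit.eval (⟨C'.size, C'.gate, o' 0, C'.gate_lt, q2 0⟩ :
          H540R2.Circuit (bits N q)) (code I) = (D (edges I)).eval (code I) := by
        have h7 := q3 (code I) 0
        rw [wt_code] at h7
        exact (reout_eval C' (o' 0) (q2 0) (code I)).trans h7
      unfold Right
      rw [h6]
      exact h5
  · rintro ⟨c, h⟩
    refine ⟨21 + 14 * (q ^ q + 4) + c + 1, fun N a => ?_⟩
    obtain ⟨D, d1, d2⟩ := h N
    have hb := bits_le N q
    obtain ⟨C', q1, q2, q3⟩ := window_multi D a (min (t N) (Nat.log 2 (bits N q) + 1))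
    obtain ⟨o', r1, r2⟩ := q3 D.out D.out_lt
    refine ⟨⟨C'.size, C'.gate, o', C'.gate_lt, r1⟩, ?_, ?_, fun I h1 h2 => ?_⟩
    · exact le_trans q1 (min_le_left _ _)
    · show C'.size ≤ _
      refine le_trans q2 (le_trans ?_ (absorb 21 (q ^ q + 4) c N (bits N q + 2) D.size hb
        d1))
      unfold isz
      have e1 := pow_two_log (bits N q)
      have e2 := tde_le' (bits N q)
      obtain ⟨B, hB⟩ : ∃ B, B = bits N q + 2 := ⟨_, rfl⟩
      rw [← hB] at e1 e2 ⊢
      obtain ⟨R, hR⟩ : ∃ R, R = 2 ^ (min (t N) (Nat.log 2 (bits N q) + 1)) := ⟨_, rfl⟩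
      have e3 : R ≤ 2 * B := by
        rw [hR]
        exact (Nat.pow_le_pow_right (by norm_num) (min_le_right _ _)).trans e1
      rw [← hR]
      have hB1 : 1 ≤ B := by omega
      have hM : bits N q + 1 ≤ B := by omega
      have e4 : B ^ 2 ≤ B ^ 14 := Nat.pow_le_pow_right hB1 (by norm_num)
      have e8 : R * 2 ^ tde (bits N q) ≤ (2 * B) * (2 ^ 18 * B ^ 12) := Nat.mul_le_mul e3 e2
      calc bits N q * (R * 2 ^ tde (bits N q)) + R * 2 ^ tde (bits N q) +
            6 * R * (bits N q + 1) + 2 * D.size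
          = (bits N q + 1) * (R * 2 ^ tde (bits N q)) + 6 * R * (bits N q + 1) + 2 * D.size := by
            ring
        _ ≤ B * ((2 * B) * (2 ^ 18 * B ^ 12)) + 6 * (2 * B) * B + 2 * D.size := by gcongr
        _ = 2 ^ 19 * B ^ 14 + 12 * B ^ 2 + 2 * D.size := by ring
        _ ≤ 2 ^ 21 * B ^ 14 * (D.size + 1) := by
            have e5 : 2 ^ 21 * B ^ 14 * (D.size + 1) =
                2 ^ 21 * (B ^ 14 * D.size) + 2 ^ 21 * B ^ 14 := by ring
            have e6 : D.size ≤ B ^ 14 * D.size :=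
              Nat.le_mul_of_pos_left _ (Nat.pow_pos hB1)
            rw [e5]
            omega
    · have h5 := d2 I
      have h6 : H540R2.Circuit.eval (⟨C'.size, C'.gate, o', C'.gate_lt, r1⟩ :
          H540R2.Circuit (bits N q)) (code I) = D.eval (code I) := by
        refine (reout_eval C' o' r1 (code I)).trans (r2 (code I) ?_ ?_)
        · rw [wt_code]; exact h1
        · rcases le_total (t N) (Nat.log 2 (bits N q) + 1) with h8 | h8
          · rw [min_eq_left h8, wt_code]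
            have := (hW N).2
            omega
          · rw [min_eq_right h8]
            have h9 : bits N q < 2 ^ (Nat.log 2 (bits N q) + 1) :=
              Nat.lt_pow_succ_log_self (by norm_num) _
            have := wt_le (code I)
            omega
      unfold Right
      rw [h6]
      exact h5

end Pool.Agent.W953.TG
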